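import Pool.Agent.H18.XZ.TB

/-!
# BLK: bad blocks are rare, by resampling the tables of the block (helper90)
-/

set_option autoImplicit false

namespace Pool.Agent.H90.XZ

open Finset Pool.Agent.H70.OQ Pool.Agent.H66.AV
open Pool.Agent.H18.XZ

section

variable {R : Type} {n k : ℕ} {e : R → Fin n → Bool}

theorem zby_at (he : Function.Injective e) (z : Wn n k) (b : R → Bool)
    (H : R → Hid (Fin n → Bool) (Ys n) k) (u : R → Fin n → Bool) (r : R) :
    zby e z b H u (e r) = (b r, H r, u r) := by
  have h : ∃ r', e r' = e r := ⟨r, rfl⟩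
  have h2 : h.choose = r := he h.choose_spec
  unfold zby
  rw [dif_pos h, h2]

theorem zby_off (z : Wn n k) (b : R → Bool)
    (H : R → Hid (Fin n → Bool) (Ys n) k) (u : R → Fin n → Bool) (x : Fin n → Bool)
    (h : ¬ ∃ r, e r = x) : zby e z b H u x = z x := by
  unfold zby
  rw [dif_neg h]

/-- The choices for the block. -/
abbrev Yb (R : Type) (n k : ℕ) : Type :=
  (R → Bool) × (R → Hid (Fin n → Bool) (Ys n) k) × (R → Fin n → Bool)

/-- The choices of the block and the given ones are exchanged. -/
noncomputable def swp (e : R → Fin n → Bool) (p : Wn n k × Yb R n k) : Wn n k × Yb R n k :=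
  (zby e p.1 p.2.1 p.2.2.1 p.2.2.2,
    (fun r => (p.1 (e r)).1, fun r => (p.1 (e r)).2.1, fun r => (p.1 (e r)).2.2))

theorem swp_swp (he : Function.Injective e) (p : Wn n k × Yb R n k) : swp e (swp e p) = p := by
  obtain ⟨z, b, H, u⟩ := p
  have h1 : (swp e (z, b, H, u)).1 = zby e z b H u := rfl
  refine Prod.ext ?_ ?_
  · funext x
    by_cases hx : ∃ r, e r = x
    · obtain ⟨r, rfl⟩ := hx
      exact zby_at he _ _ _ _ r
    · refine (zby_off _ _ _ _ x hx).trans ?_
      exact zby_off _ _ _ _ x hx
  · refine Prod.ext ?_ (Prod.ext ?_ ?_)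
    · funext r
      show (zby e z b H u (e r)).1 = b r
      rw [zby_at he]
    · funext r
      show (zby e z b H u (e r)).2.1 = H r
      rw [zby_at he]
    · funext r
      show (zby e z b H u (e r)).2.2 = u r
      rw [zby_at he]

end

theorem pf_BLK : T_BLK := by
  classical
  intro R _ _ n k e he C δ h
  by_cases hne : Nonempty (Wn n k)
  · obtain ⟨z₀⟩ := hne
    have hY : (0 : ℝ) < Fintype.card (Yb R n k) := by
      have : Nonempty (Yb R n k) :=
        ⟨(fun r => (z₀ (e r)).1, fun r => (z₀ (e r)).2.1, fun r => (z₀ (e r)).2.2)⟩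
      exact_mod_cast Fintype.card_pos
    let Φ : Wn n k × Yb R n k ≃ Wn n k × Yb R n k :=
      { toFun := swp e, invFun := swp e, left_inv := swp_swp he, right_inv := swp_swp he }
    have h1 : ∑ p : Wn n k × Yb R n k, (if C (zby e p.1 p.2.1 p.2.2.1 p.2.2.2) then (1 : ℝ) else 0) =
        ∑ p : Wn n k × Yb R n k, (if C p.1 then (1 : ℝ) else 0) :=
      Equiv.sum_comp Φ fun p => (if C p.1 then (1 : ℝ) else 0)
    rw [Fintype.sum_prod_type, Fintype.sum_prod_type] at h1
    have h2 : ∑ z : Wn n k, ∑ _y : Yb R n k, (if C z then (1 : ℝ) else 0) =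
        ((univ.filter fun z : Wn n k => C z).card : ℝ) * Fintype.card (Yb R n k) := by
      rw [Finset.card_eq_sum_ones, Nat.cast_sum, Finset.sum_filter, Finset.sum_mul]
      refine Finset.sum_congr rfl fun z _ => ?_
      rw [Finset.sum_const, Finset.card_univ, nsmul_eq_mul]
      split_ifs <;> simp
    have h3 : ∑ z : Wn n k, ∑ y : Yb R n k,
        (if C (zby e z y.1 y.2.1 y.2.2) then (1 : ℝ) else 0) ≤
          ∑ _z : Wn n k, (Fintype.card (Yb R n k) : ℝ) * δ := by
      refine Finset.sum_le_sum fun z _ => le_trans (le_of_eq ?_) (h z)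
      rw [Finset.card_eq_sum_ones, Nat.cast_sum, Finset.sum_filter]
      simp
    have h4 : ((univ.filter fun z : Wn n k => C z).card : ℝ) * Fintype.card (Yb R n k) ≤
        (Fintype.card (Wn n k) * δ) * Fintype.card (Yb R n k) := by
      rw [← h2, ← h1]
      refine h3.trans (le_of_eq ?_)
      rw [Finset.sum_const, Finset.card_univ, nsmul_eq_mul]
      ring
    exact le_of_mul_le_mul_right h4 hY
  · have : IsEmpty (Wn n k) := not_nonempty_iff.1 hne
    rw [Fintype.card_of_isEmpty, Finset.univ_eq_empty]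
    simp

end Pool.Agent.H90.XZ
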