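import Pool.Agent.H18.XZ.TB
import Pool.Agent.H70.OQ.Basic

/-!
# CRD: cardinalities (helper90)
-/

set_option autoImplicit false

namespace Pool.Agent.H90.XZ

open Finset Pool.Agent.H70.OQ
open Pool.Agent.H18.XZ

theorem pf_CRD : T_CRD := by
  intro R _ _ n a ha hR i
  have hN : ∀ i, Fintype.card (Node (R × (Fin n → Bool)) (Ys n) i) =
      2 ^ (a + (2 ^ (i + 1) - 1) * n) := by
    intro i
    induction i with
    | zero =>
      rw [card_node0, Fintype.card_prod, hR, Fintype.card_fun, Fintype.card_bool, Fintype.card_fin,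
        ← pow_add]
      simp
    | succ i ih =>
      rw [card_node, ih, Fintype.card_fun, Fintype.card_bool, Fintype.card_fin, ← pow_add, add_assoc,
        ← add_mul]
      congr 3
      have : 1 ≤ 2 ^ (i + 1) := Nat.one_le_two_pow
      rw [pow_succ 2 (i + 1)]
      omega
  rw [hN, ← pow_add, Fintype.card_fun, Fintype.card_bool, Fintype.card_fin]
  refine le_of_eq (congrArg _ ?_)
  obtain ⟨m, hm⟩ : ∃ m, 2 ^ (i + 1) = m + 1 := ⟨2 ^ (i + 1) - 1, by
    have : 1 ≤ 2 ^ (i + 1) := Nat.one_le_two_pow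
    omega⟩
  rw [hm, Nat.add_sub_cancel, Nat.succ_mul]
  omega

end Pool.Agent.H90.XZ
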