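import Pool.Agent.H18.XZ.TC
import Pool.Agent.H10.AVH.SUM

/-!
# Exponentially large protocols: all tables at once, uniformly in the protocols (row SUS, helper90;
copy of Pool/Agent/H13/XX/SUZ.lean)
-/

set_option autoImplicit false

namespace Pool.Agent.H90.XZ

open Finset Pool.Agent.H70.OQ
open Pool.Agent.H70.EH hiding T_NUM
open Pool.Agent.H78.XQ hiding T_POW T_SUM
open Pool.Agent.H6.NB hiding sg T_NUM
open Pool.Agent.H70.EI hiding T_AST T_NU2
open Pool.Agent.H66.IP (Local ins sp dm IsZ scl mBp m0p)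
open Pool.Agent.H66.IQ
open Pool.Agent.H66.AV
open Pool.Agent.H18.XX (Exa lx ax GoodZ Cz wz wy RhZ)
open Pool.Agent.H18.XZ
open Pool.Agent.H10.AVH (sum_small_mono sum_bd_mono sum_bd_tests sum_tests_bd sum_val01 sum_upd)

theorem pf_SUS (hAMP : Pool.Agent.H66.AV.T_AMP) (hPOW : Pool.Agent.H66.AV.T_POW)
    (hNUM : Pool.Agent.H66.AV.T_NUM) (hNUS : T_NUS) (hRXS : T_RXS)
    (hRCT : Pool.Agent.H66.AV.T_RCT) (hGZA : Pool.Agent.H66.AV.T_GZA)
    (hOVL : Pool.Agent.H66.AV.T_OVL) : T_SUS := by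
  classical
  intro V k
  obtain ⟨n₂, h2⟩ := hNUM
  obtain ⟨n₃, h3⟩ := hRXS V k
  obtain ⟨n₄, h4'⟩ := hNUS
  refine ⟨n₂ + n₃ + n₄, fun n hn G hGW => ?_⟩
  obtain ⟨e1, e2, e3, -⟩ := h2 n (by omega)
  have e4 := h4' n (by omega)
  set a : ℕ := n / 64 + n / 32 + 4 with ha
  set B : ℕ := 2 ^ (n / 32) with hB
  have hB1 : 1 ≤ B := Nat.one_le_two_pow
  have hA : ∀ x : Fin n → Bool, ∃ G' : Prot k,
      G'.moves ≤ (2 * a + 1) * 4 ^ a * (G (List.ofFn x)).moves ∧
      (∀ d s, Bd d s (G (List.ofFn x)) → Bd ((2 * a + 1) * 4 ^ a * d) s G') ∧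
      ∀ O, (2 / 3 ≤ (G (List.ofFn x)).val O → 1 - (1 / 2) ^ a ≤ G'.val O) ∧
        ((G (List.ofFn x)).val O ≤ 1 / 3 → G'.val O ≤ (1 / 2) ^ a) :=
    fun x => hAMP k (G (List.ofFn x)) a (by omega)
  choose A hAm hAb hAv using hA
  have hC : ∀ x : Fin n → Bool, ∃ G' : Prot k, G'.moves ≤ B * (A x).moves ∧
      (∀ d s, Bd d s (A x) → Bd (B * d) s G') ∧
      ∀ O, 1 - G'.val O = (1 - (A x).val O) ^ B := fun x => (hPOW k (A x) B).2
  choose C hCm hCb hCv using hC
  have hs16 : 2 ^ (n / 16) ≤ 2 ^ (n / 6) := Nat.pow_le_pow_right (by norm_num) (by omega)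
  have hs4 : 2 ^ (n / 16) ≤ 2 ^ (n / 4) := Nat.pow_le_pow_right (by norm_num) (by omega)
  have hAB : ∀ x, Bd ((2 * a + 1) * 4 ^ a * 2 ^ (n / 16)) (2 ^ (n / 16)) (A x) :=
    fun x => hAb x _ _ (sum_tests_bd _ (hGW x).2)
  have hAW : ∀ x, (A x).Within (2 ^ (n / 6)) := fun x =>
    ⟨((hAm x).trans (Nat.mul_le_mul_left _ (hGW x).1)).trans e1,
      sum_bd_tests _ (sum_bd_mono e1 hs16 _ (hAB x))⟩
  have hCW : ∀ x, (C x).Within (2 ^ (n / 4)) := fun x =>
    ⟨((hCm x).trans (Nat.mul_le_mul_left _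
        ((hAm x).trans (Nat.mul_le_mul_left _ (hGW x).1)))).trans e2,
      sum_bd_tests _ (sum_bd_mono e2 hs4 _ (hCb x _ _ (hAB x)))⟩
  have hε : (0 : ℝ) < (1 / 2) ^ (n / 64) := by positivity
  have hε1 : ((1 / 2 : ℝ)) ^ (n / 64) ≤ 1 := pow_le_one₀ (by norm_num) (by norm_num)
  refine ⟨A, C, fun Q z => ⟨?_, fun hQ ht => ?_⟩, fun M hk hn' E O hO => ?_⟩
  · unfold tst
    have h5 : 0 ≤ s1 A C Q z := by
      unfold s1
      refine Finset.sum_nonneg fun x _ => ?_
      split_ifs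
      · exact mul_nonneg (sum_val01 _ _).1 (sub_nonneg.2 (sum_val01 _ _).2)
      · exact le_rfl
    have h6 : 0 ≤ 16 / (((1 / 2 : ℝ) ^ (n / 64)) ^ 2 * 4 ^ n) := by positivity
    have h7 : 0 ≤ 2 / ((1 / 2 : ℝ) ^ (n / 64) * 2 ^ n) := by positivity
    exact add_nonneg (mul_nonneg h6 (sq_nonneg _)) (mul_nonneg h7 h5)
  · exact hRCT n k G A C a B _ hε e3 hAv hCv hB1 Q z hQ ht
  · set t : Fin M × Fin M := (⟨k, hk⟩, ⟨n, hn'⟩) with ht
    let F : Za M → ℝ := fun z => ∑ P, wz V E O (gza M z) P *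
        tst ((1 / 2) ^ (n / 64)) A C (fun T => O P (ovl n k (gza M z) T)) (z t)
    show ∑ z : Za M, F z ≤ Fintype.card (Za M) * (1 / 2) ^ (n / 100)
    by_cases hne : Nonempty (Za M)
    · obtain ⟨z₀⟩ := hne
      have hW : (0 : ℝ) < Fintype.card (Wn n k) := by
        have : Nonempty (Wn n k) := ⟨z₀ t⟩
        exact_mod_cast Fintype.card_pos
      have h5 : ∀ z : Za M, ∑ c : Wn n k, F (Function.update z t c) ≤
          Fintype.card (Wn n k) * (1 / 2) ^ (n / 100) := by
        intro z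
        have h6 : ∀ c : Wn n k, F (Function.update z t c) =
            ∑ P, wz V E O (ovl n k (gza M z) (tbl c)) P *
              tst ((1 / 2) ^ (n / 64)) A C (fun T => O P (ovl n k (gza M z) T)) c := by
          intro c
          have h7 : gza M (Function.update z t c) = ovl n k (gza M z) (tbl c) := hGZA M z t c
          have h8 : (Function.update z t c) t = c := Function.update_self t c z
          show ∑ P, wz V E O (gza M (Function.update z t c)) P *
            tst ((1 / 2) ^ (n / 64)) A C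
              (fun T => O P (ovl n k (gza M (Function.update z t c)) T))
              ((Function.update z t c) t) = _
          rw [h7, h8]
          refine Finset.sum_congr rfl fun P _ => ?_
          have h9 : (fun T => O P (ovl n k (ovl n k (gza M z) (tbl c)) T)) =
              fun T => O P (ovl n k (gza M z) T) := by
            funext T
            rw [(hOVL n k (gza M z)).2.2.1 T (tbl c)]
          rw [h9]
        rw [Finset.sum_congr rfl fun c _ => h6 c]
        refine (h3 n (by omega) A C B hB1 hAW hCW hCv _ hε hε1 E O hO (gza M z)).trans ?_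
        exact mul_le_mul_of_nonneg_left e4 (Nat.cast_nonneg _)
      have h6 : (Fintype.card (Wn n k) : ℝ) * ∑ z : Za M, F z ≤
          Fintype.card (Wn n k) * (Fintype.card (Za M) * (1 / 2) ^ (n / 100)) := by
        have h7 := sum_upd (W := fun t : Fin M × Fin M => Wn t.2.1 t.1.1) t F
        calc (Fintype.card (Wn n k) : ℝ) * ∑ z : Za M, F z =
            ∑ z : Za M, ∑ c : Wn n k, F (Function.update z t c) := h7.symm
          _ ≤ ∑ _z : Za M, (Fintype.card (Wn n k) : ℝ) * (1 / 2 : ℝ) ^ (n / 100) :=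
              Finset.sum_le_sum fun z _ => h5 z
          _ = _ := by
              rw [Finset.sum_const, Finset.card_univ, nsmul_eq_mul]
              ring
      exact le_of_mul_le_mul_left h6 hW
    · have : IsEmpty (Za M) := not_nonempty_iff.1 hne
      rw [Fintype.sum_empty, Fintype.card_of_isEmpty]
      simp

end Pool.Agent.H90.XZ
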